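import Mathlib

set_option autoImplicit false

/-!
Translating a speed set can destroy its loneliness gap: for every `n ≥ 2` and every translation
length `a ≥ 1` there are infinitely many primitive `n`-sets `V` with `κ(V)` as close to `1/2` as
desired (and below `1/2`) for which `κ(a + V) = 1/(n+1)`.
-/

namespace Pool.Agent.Results.MP_64d5df_nt.TranslationDrop

/-- The distance from a real number to the nearest integer. -/
noncomputable def distInt (x : ℝ) : ℝ := |x - round x|

/-- The loneliness gap `κ(V) = sup_t min_{v ∈ V} ‖t v‖` of a finite set of speeds. -/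
noncomputable def kappa (V : Finset ℕ) : ℝ := ⨆ t : ℝ, ⨅ v : V, distInt (t * ((v : ℕ) : ℝ))

lemma distInt_nonneg (x : ℝ) : 0 ≤ distInt x := abs_nonneg _

lemma distInt_le_half (x : ℝ) : distInt x ≤ 1 / 2 := abs_sub_round x

lemma distInt_le (x : ℝ) (m : ℤ) : distInt x ≤ |x - m| := round_le x m

lemma le_distInt {x c : ℝ} (h : ∀ m : ℤ, c ≤ |x - m|) : c ≤ distInt x := h _

lemma bdd_inner (V : Finset ℕ) (t : ℝ) :
    BddBelow (Set.range fun v : V => distInt (t * ((v : ℕ) : ℝ))) :=
  ⟨0, by rintro _ ⟨v, rfl⟩; exact distInt_nonneg _⟩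

lemma inner_le {V : Finset ℕ} {v : ℕ} (hv : v ∈ V) (t : ℝ) :
    (⨅ v : V, distInt (t * ((v : ℕ) : ℝ))) ≤ distInt (t * (v : ℝ)) :=
  ciInf_le (bdd_inner V t) (⟨v, hv⟩ : V)

lemma bdd_outer {V : Finset ℕ} (hV : V.Nonempty) :
    BddAbove (Set.range fun t : ℝ => ⨅ v : V, distInt (t * ((v : ℕ) : ℝ))) := by
  obtain ⟨v, hv⟩ := hV
  exact ⟨1 / 2, by rintro _ ⟨t, rfl⟩; exact (inner_le hv t).trans (distInt_le_half _)⟩

lemma le_kappa {V : Finset ℕ} (hV : V.Nonempty) {c : ℝ} (t : ℝ)
    (h : ∀ v ∈ V, c ≤ distInt (t * (v : ℝ))) : c ≤ kappa V := by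
  have : Nonempty V := hV.to_subtype
  refine le_trans ?_ (le_ciSup (bdd_outer hV) t)
  exact le_ciInf fun v => h v v.2

lemma kappa_le {V : Finset ℕ} {c : ℝ}
    (h : ∀ t : ℝ, ∃ v ∈ V, distInt (t * (v : ℝ)) ≤ c) : kappa V ≤ c := by
  refine ciSup_le fun t => ?_
  obtain ⟨v, hv, hle⟩ := h t
  exact (inner_le hv t).trans hle

/-- The set `{d - a, 2d - a, …, nd - a}`. -/
def prog (n a d : ℕ) : Finset ℕ := (Finset.range n).image fun j => (j + 1) * d - a

lemma mem_prog {n a d v : ℕ} : v ∈ prog n a d ↔ ∃ j < n, (j + 1) * d - a = v := by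
  simp [prog]

lemma le_mul_succ {a d : ℕ} (had : a < d) (j : ℕ) : a < (j + 1) * d := by
  have : d ≤ (j + 1) * d := Nat.le_mul_of_pos_left d (Nat.succ_pos j)
  omega

lemma card_prog {n a d : ℕ} (had : a < d) : (prog n a d).card = n := by
  rw [prog, Finset.card_image_of_injective, Finset.card_range]
  intro i j hij
  simp only at hij
  have h1 := le_mul_succ had i
  have h2 := le_mul_succ had j
  have h3 : (i + 1) * d = (j + 1) * d := by omega
  have h4 := Nat.eq_of_mul_eq_mul_right (by omega : 0 < d) h3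
  omega

lemma image_prog {n a d : ℕ} (had : a < d) :
    (prog n a d).image (fun v => a + v) = (Finset.range n).image fun j => (j + 1) * d := by
  rw [prog, Finset.image_image]
  refine Finset.image_congr fun j _ => ?_
  have := le_mul_succ had j
  simp only [Function.comp]
  omega

lemma kappa_translate {n a d : ℕ} (hn : 1 ≤ n) (had : a < d) :
    kappa ((prog n a d).image fun v => a + v) = 1 / ((n : ℝ) + 1) := by
  rw [image_prog had]
  have hd : (0 : ℝ) < d := by exact_mod_cast (by omega : 0 < d)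
  have hn1 : (0 : ℝ) < (n : ℝ) + 1 := by positivity
  apply le_antisymm
  · apply kappa_le
    intro t
    obtain ⟨j, k, hk0, hkn, hle⟩ := Real.exists_int_int_abs_mul_sub_le (t * d) (by omega : 0 < n)
    refine ⟨(k.toNat - 1 + 1) * d, ?_, ?_⟩
    · rw [Finset.mem_image]
      exact ⟨k.toNat - 1, by rw [Finset.mem_range]; omega, rfl⟩
    · refine (distInt_le _ j).trans (le_trans (le_of_eq ?_) hle)
      have h1 : k.toNat - 1 + 1 = k.toNat := by omega
      rw [h1]
      have h2 : ((k.toNat : ℕ) : ℝ) = (k : ℝ) := by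
        have : ((k.toNat : ℕ) : ℤ) = k := Int.toNat_of_nonneg (by omega)
        exact_mod_cast this
      push_cast
      rw [h2]
      congr 1
      ring
  · refine le_kappa ⟨_, Finset.mem_image_of_mem _ (Finset.mem_range.mpr (by omega : 0 < n))⟩
      (1 / (d * ((n : ℝ) + 1))) ?_
    · intro v hv
      rw [Finset.mem_image] at hv
      obtain ⟨j, hj, rfl⟩ := hv
      rw [Finset.mem_range] at hj
      have h1 : 1 / (d * ((n : ℝ) + 1)) * (((j + 1) * d : ℕ) : ℝ) = ((j : ℝ) + 1) / (n + 1) := by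
        push_cast
        field_simp
      rw [h1]
      apply le_distInt
      intro m
      have h2 : ((j : ℝ) + 1) / (n + 1) - m = (((j : ℤ) + 1 - m * (n + 1) : ℤ) : ℝ) / (n + 1) := by
        push_cast
        field_simp
      rw [h2, abs_div, abs_of_pos hn1]
      apply div_le_div_of_nonneg_right _ hn1.le
      have h3 : ((j : ℤ) + 1 - m * (n + 1) : ℤ) ≠ 0 := by
        intro h0
        have h4 : (j : ℤ) + 1 = m * (n + 1) := by linarith
        have h5 : 0 < m := by
          by_contra hm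
          push Not at hm
          have : m * ((n : ℤ) + 1) ≤ 0 := mul_nonpos_of_nonpos_of_nonneg hm (by positivity)
          linarith [(by positivity : (0 : ℤ) ≤ (j : ℤ))]
        have h6 : (n : ℤ) + 1 ≤ m * (n + 1) := by nlinarith
        omega
      have h4 := Int.one_le_abs h3
      exact_mod_cast h4

lemma half_sub_le_kappa {n a d e : ℕ} (hn : 1 ≤ n) (had : a < d) (hde : d = 2 * e + 1)
    (hcop : Nat.Coprime a d) : (e : ℝ) / d ≤ kappa (prog n a d) := by
  have hd : (0 : ℝ) < d := by exact_mod_cast (by omega : 0 < d)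
  -- choose `k` with `k a ≡ e` modulo `d`
  obtain ⟨k, l, hk⟩ : ∃ k l : ℤ, k * a = e + l * d := by
    have hb : IsCoprime (a : ℤ) (d : ℤ) := Nat.isCoprime_iff_coprime.mpr hcop
    obtain ⟨u, v, huv⟩ := hb
    refine ⟨e * u, -(e * v), ?_⟩
    linear_combination (e : ℤ) * huv
  refine le_kappa (V := prog n a d)
    ⟨_, Finset.mem_image_of_mem _ (Finset.mem_range.mpr (by omega : 0 < n))⟩ ((k : ℝ) / d) ?_
  · intro v hv
    rw [mem_prog] at hv
    obtain ⟨j, hj, rfl⟩ := hv
    have h0 := le_mul_succ had j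
    apply le_distInt
    intro m
    have hkR : (k : ℝ) * a = e + l * d := by exact_mod_cast hk
    have h1 : (k : ℝ) / d * (((j + 1) * d - a : ℕ) : ℝ) - m
        = ((((k * (j + 1) - l - m) * d - e : ℤ)) : ℝ) / d := by
      rw [Nat.cast_sub h0.le]
      push_cast
      field_simp
      linear_combination -hkR
    rw [h1, abs_div, abs_of_pos hd]
    apply div_le_div_of_nonneg_right _ hd.le
    obtain ⟨x, hx⟩ : ∃ x : ℤ, x = k * (j + 1) - l - m := ⟨_, rfl⟩
    rw [← hx]
    have h2 : (e : ℤ) ≤ |x * d - e| := by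
      rcases le_or_gt x 0 with hx0 | hx0
      · have : x * (d : ℤ) ≤ 0 := mul_nonpos_of_nonpos_of_nonneg hx0 (by positivity)
        rw [abs_of_nonpos (by linarith [(by positivity : (0 : ℤ) ≤ (e : ℤ))])]
        linarith
      · have : (d : ℤ) ≤ x * d := by nlinarith [(by positivity : (0 : ℤ) ≤ (d : ℤ))]
        have h3 : (d : ℤ) = 2 * e + 1 := by exact_mod_cast hde
        rw [abs_of_nonneg (by linarith)]
        linarith
    exact_mod_cast h2

lemma kappa_lt_half {n a d e : ℕ} (hn : 2 ≤ n) (had : a < d) (hde : d = 2 * e + 1) :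
    kappa (prog n a d) < 1 / 2 := by
  have hd : (0 : ℝ) < d := by exact_mod_cast (by omega : 0 < d)
  have hadR : (a : ℝ) < d := by exact_mod_cast had
  have key : kappa (prog n a d) ≤ 1 / 2 - 1 / (12 * d) := by
    apply kappa_le
    intro t
    by_contra hcon
    push Not at hcon
    have m1 : (0 + 1) * d - a ∈ prog n a d := mem_prog.mpr ⟨0, by omega, rfl⟩
    have m2 : (1 + 1) * d - a ∈ prog n a d := mem_prog.mpr ⟨1, by omega, rfl⟩
    have g1 := hcon _ m1
    have g2 := hcon _ m2
    have c1 : (((0 + 1) * d - a : ℕ) : ℝ) = d - a := by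
      rw [Nat.cast_sub (by omega)]; push_cast; ring
    have c2 : (((1 + 1) * d - a : ℕ) : ℝ) = 2 * d - a := by
      rw [Nat.cast_sub (by omega)]; push_cast; ring
    rw [c1] at g1
    rw [c2] at g2
    -- both `t (d-a)` and `t (2d-a)` are close to half integers
    have near : ∀ x : ℝ, 1 / 2 - 1 / (12 * d) < distInt x →
        ∃ m : ℤ, |x - (m + 1 / 2)| < 1 / (12 * d) := by
      intro x hx
      refine ⟨⌊x⌋, ?_⟩
      have a1 := distInt_le x ⌊x⌋
      have a2 := distInt_le x (⌊x⌋ + 1)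
      have a3 := Int.floor_le x
      have a4 := Int.lt_floor_add_one x
      rw [abs_of_nonneg (by linarith)] at a1
      push_cast at a2
      rw [abs_of_nonpos (by linarith)] at a2
      rw [abs_lt]
      constructor <;> linarith
    obtain ⟨p, hp⟩ := near _ g1
    obtain ⟨q, hq⟩ := near _ g2
    -- `t d` is close to the integer `q - p`, so `t` is close to `(q-p)/d`
    rw [abs_lt] at hp hq
    obtain ⟨r, hr⟩ : ∃ r : ℝ, r = t * d - (q - p : ℤ) := ⟨_, rfl⟩
    have hr1 : |r| < 1 / (6 * d) := by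
      have h6 : (1 : ℝ) / (6 * d) = 1 / (12 * d) + 1 / (12 * d) := by field_simp; norm_num
      rw [abs_lt, hr, h6]
      push_cast
      constructor <;> linarith [hp.1, hp.2, hq.1, hq.2]
    -- multiply the first relation by `2 d`
    have hodd : (2 * (q - p) * ((d : ℤ) - a) - (2 * p + 1) * d : ℤ) ≠ 0 := by
      intro h0
      have : (2 * ((q - p) * ((d : ℤ) - a) - p * d - e) - 1 : ℤ) = 0 := by
        have h3 : (d : ℤ) = 2 * e + 1 := by exact_mod_cast hde
        rw [← h0]
        linear_combination h3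
      omega
    have h1 := Int.one_le_abs hodd
    have h1R : (1 : ℝ) ≤ |(2 * (q - p) * ((d : ℝ) - a) - (2 * p + 1) * d)| := by exact_mod_cast h1
    have h2 : (2 * ((q : ℝ) - p) * ((d : ℝ) - a) - (2 * p + 1) * d)
        = 2 * d * (t * (d - a) - (p + 1 / 2)) - 2 * r * (d - a) := by
      rw [hr]; push_cast; ring
    rw [h2] at h1R
    have h3 : |2 * d * (t * (d - a) - (p + 1 / 2)) - 2 * r * (d - a)|
        ≤ |2 * d * (t * (d - a) - (p + 1 / 2))| + |2 * r * (d - a)| := abs_sub _ _
    have h4 : |2 * d * (t * (d - a) - (p + 1 / 2))| ≤ 1 / 6 := by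
      rw [abs_mul, abs_of_pos (by positivity : (0 : ℝ) < 2 * d)]
      have : |t * (d - a) - (p + 1 / 2)| ≤ 1 / (12 * d) := abs_le.mpr ⟨hp.1.le, hp.2.le⟩
      calc 2 * (d : ℝ) * |t * (d - a) - (p + 1 / 2)| ≤ 2 * d * (1 / (12 * d)) := by gcongr
        _ = 1 / 6 := by field_simp; norm_num
    have h5 : |2 * r * (d - a)| ≤ 1 / 3 := by
      rw [abs_mul, abs_mul, abs_of_pos (by norm_num : (0 : ℝ) < 2),
        abs_of_pos (by linarith : (0 : ℝ) < d - a)]
      have h6 : (d : ℝ) - a ≤ d := by linarith [(by positivity : (0 : ℝ) ≤ (a : ℝ))]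
      calc 2 * |r| * (d - a) ≤ 2 * (1 / (6 * d)) * d := by
            gcongr
        _ = 1 / 3 := by field_simp; norm_num
    linarith
  have : (0 : ℝ) < 1 / (12 * d) := by positivity
  linarith

lemma gcd_prog {n a d : ℕ} (hn : 2 ≤ n) (had : a < d) (hcop : Nat.Coprime a d) :
    (prog n a d).gcd id = 1 := by
  have m1 : (0 + 1) * d - a ∈ prog n a d := mem_prog.mpr ⟨0, by omega, rfl⟩
  have m2 : (1 + 1) * d - a ∈ prog n a d := mem_prog.mpr ⟨1, by omega, rfl⟩
  have h1 := Finset.gcd_dvd (f := id) m1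
  have h2 := Finset.gcd_dvd (f := id) m2
  simp only [id] at h1 h2
  set g := (prog n a d).gcd id with hg
  have h3 : g ∣ d := by
    have := Nat.dvd_sub h2 h1
    have h4 : (1 + 1) * d - a - ((0 + 1) * d - a) = d := by omega
    rwa [h4] at this
  have h5 : g ∣ a := by
    have h6 := Nat.dvd_sub h3 h1
    have h7 : d - ((0 + 1) * d - a) = a := by omega
    rwa [h7] at h6
  exact Nat.eq_one_of_dvd_one (hcop ▸ Nat.dvd_gcd h5 h3)

/-- For every `n ≥ 2`, every translation length `a ≥ 1` and every `ε > 0` there are infinitely many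
sets `V` of `n` positive integers with greatest common divisor `1` such that
`1/2 - ε < κ(V) < 1/2` while `κ(a + V) = 1/(n+1)`. -/
theorem result (n a : ℕ) (hn : 2 ≤ n) (ha : 1 ≤ a) (ε : ℝ) (hε : 0 < ε) :
    {V : Finset ℕ | V.card = n ∧ (∀ v ∈ V, 0 < v) ∧ V.gcd id = 1 ∧
      1 / 2 - ε < kappa V ∧ kappa V < 1 / 2 ∧
      kappa (V.image fun v => a + v) = 1 / ((n : ℝ) + 1)}.Infinite := by
  obtain ⟨M, hM⟩ := exists_nat_gt (1 / ε)
  have hMpos : (0 : ℝ) < M := lt_trans (by positivity) hM
  have hM1 : 1 ≤ M := by exact_mod_cast hMpos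
  apply Set.infinite_of_injective_forall_mem
    (f := fun m : ℕ => prog n a (2 * (a * (M + m)) + 1))
  · intro x y hxy
    have hx : a < 2 * (a * (M + x)) + 1 := by nlinarith
    have hy : a < 2 * (a * (M + y)) + 1 := by nlinarith
    -- the smallest elements agree
    by_contra hne
    wlog hlt : x < y generalizing x y with H
    · exact H hxy.symm hy hx (Ne.symm hne) (by omega)
    have m1 : (0 + 1) * (2 * (a * (M + x)) + 1) - a ∈ prog n a (2 * (a * (M + x)) + 1) :=
      mem_prog.mpr ⟨0, by omega, rfl⟩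
    simp only at hxy
    rw [hxy, mem_prog] at m1
    obtain ⟨j, _, hj⟩ := m1
    have h1 : 2 * (a * (M + x)) + 1 < 2 * (a * (M + y)) + 1 := by nlinarith
    have h2 : 2 * (a * (M + y)) + 1 ≤ (j + 1) * (2 * (a * (M + y)) + 1) :=
      Nat.le_mul_of_pos_left _ (Nat.succ_pos j)
    omega
  · intro m
    obtain ⟨d, hd⟩ : ∃ d, d = 2 * (a * (M + m)) + 1 := ⟨_, rfl⟩
    have had : a < d := by rw [hd]; nlinarith
    have hcop : Nat.Coprime a d := by
      have h1 : 2 * (a * (M + m)) + 1 = 1 + (2 * (M + m)) * a := by ring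
      rw [hd, h1, Nat.coprime_add_mul_right_right]
      exact Nat.coprime_one_right a
    have hdR : (d : ℝ) = 2 * ((a * (M + m) : ℕ) : ℝ) + 1 := by rw [hd]; push_cast; ring
    have hdpos : (0 : ℝ) < d := by exact_mod_cast (by omega : 0 < d)
    show (prog n a (2 * (a * (M + m)) + 1)).card = n ∧ _
    rw [← hd]
    refine ⟨card_prog had, ?_, gcd_prog hn had hcop, ?_, kappa_lt_half hn had hd,
      kappa_translate (by omega) had⟩
    · intro v hv
      rw [mem_prog] at hv
      obtain ⟨j, _, rfl⟩ := hv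
      have := le_mul_succ had j
      omega
    · refine lt_of_lt_of_le ?_ (half_sub_le_kappa (by omega) had hd hcop)
      rw [lt_div_iff₀ hdpos]
      have h1 : (M : ℝ) ≤ ((a * (M + m) : ℕ) : ℝ) := by
        exact_mod_cast (by nlinarith : M ≤ a * (M + m))
      have h2 : 1 < ε * M := by
        rw [div_lt_iff₀ hε] at hM
        linarith
      have h3 : ε * M ≤ ε * ((a * (M + m) : ℕ) : ℝ) := by gcongr
      nlinarith

end Pool.Agent.Results.MP_64d5df_nt.TranslationDrop
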